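import Mathlib

set_option autoImplicit false

/-!
# Polynomials under pointwise order on an interval are not universal (MP_387adc_co)
-/

namespace Pool.Agent.Results.MP_387adc_co.NotUniversal

open Polynomial

/-- The polynomials all of whose coefficients are `0`, `1` or rationals `≥ 2`. -/
def InP (p : ℚ[X]) : Prop := ∀ i, p.coeff i = 0 ∨ p.coeff i = 1 ∨ 2 ≤ p.coeff i

/-- The pointwise order on `[s, t]`. -/
def LeP (s t : ℝ) (p q : ℚ[X]) : Prop := ∀ x ∈ Set.Icc s t, aeval x p ≤ aeval x q

theorem aeval_ge {p : ℚ[X]} (hp : InP p) (h0 : p ≠ 0) {s : ℝ} (hs : 1 < s) :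
    s ^ p.natDegree ≤ aeval s p := by
  rw [aeval_eq_sum_range]
  have hlead : (1 : ℚ) ≤ p.coeff p.natDegree := by
    have h1 : p.coeff p.natDegree ≠ 0 := by
      rw [coeff_natDegree]; exact leadingCoeff_ne_zero.2 h0
    rcases hp p.natDegree with h | h | h
    · exact absurd h h1
    · exact h.ge
    · linarith
  have hlead' : (1 : ℝ) ≤ ((p.coeff p.natDegree : ℚ) : ℝ) := by exact_mod_cast hlead
  have hnn : ∀ i ∈ Finset.range (p.natDegree + 1), 0 ≤ p.coeff i • s ^ i := by
    intro i _
    have h1 : (0 : ℚ) ≤ p.coeff i := by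
      rcases hp i with h | h | h
      · exact h.ge
      · rw [h]; norm_num
      · linarith
    rw [Rat.smul_def]
    have h2 : (0 : ℝ) ≤ ((p.coeff i : ℚ) : ℝ) := by exact_mod_cast h1
    positivity
  refine le_trans ?_ (Finset.single_le_sum hnn (Finset.mem_range.2 (Nat.lt_succ_self _)))
  rw [Rat.smul_def]
  have : 0 < s ^ p.natDegree := by positivity
  nlinarith

theorem core (s t : ℝ) (hs : 1 < s) (hst : s < t) (f : WithTop (Finset ℕ) → ℚ[X])
    (hf : ∀ a, InP (f a)) (hle : ∀ a b, a ≤ b ↔ LeP s t (f a) (f b)) : False := by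
  classical
  -- bound on the degrees
  obtain ⟨D, hD⟩ : ∃ D : ℕ, aeval s (f ⊤) < s ^ D := pow_unbounded_of_one_lt _ hs
  have hdeg : ∀ a, (f a).natDegree < D ∨ f a = 0 := by
    intro a
    by_cases h0 : f a = 0
    · exact Or.inr h0
    left
    have h1 := aeval_ge (hf a) h0 hs
    have h2 := (hle a ⊤).1 le_top s ⟨le_rfl, hst.le⟩
    have h3 : s ^ (f a).natDegree < s ^ D := lt_of_le_of_lt (h1.trans h2) hD
    exact (pow_lt_pow_iff_right₀ hs).1 h3
  -- the sets
  set N := D + 1 with hN
  let x : Fin N → WithTop (Finset ℕ) := fun n => (({(n : ℕ)} : Finset ℕ) : WithTop (Finset ℕ))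
  let w : Fin N → WithTop (Finset ℕ) := fun n =>
    (((Finset.range N).erase (n : ℕ) : Finset ℕ) : WithTop (Finset ℕ))
  have hnot : ∀ n, ¬ x n ≤ w n := by
    intro n h
    have h1 := WithTop.coe_le_coe.1 h
    have h2 := h1 (Finset.mem_singleton_self _)
    exact absurd rfl (Finset.mem_erase.1 h2).1
  have hu : ∀ n, ∃ u ∈ Set.Icc s t, aeval u (f (w n)) < aeval u (f (x n)) := by
    intro n
    have h1 := hnot n
    rw [hle] at h1
    unfold LeP at h1
    push Not at h1
    exact h1
  choose u hu1 hu2 using hu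
  -- a linear dependency
  let L : (Fin N → ℝ) →ₗ[ℝ] (Fin D → ℝ) :=
    { toFun := fun c i => ∑ n, c n * u n ^ (i : ℕ)
      map_add' := by
        intro c c'
        funext i
        simp only [Pi.add_apply, add_mul, Finset.sum_add_distrib]
      map_smul' := by
        intro r c
        funext i
        simp only [Pi.smul_apply, smul_eq_mul, RingHom.id_apply, Finset.mul_sum, mul_assoc] }
  have hker : LinearMap.ker L ≠ ⊥ := by
    apply LinearMap.ker_ne_bot_of_finrank_lt
    simp [hN]
  obtain ⟨c, hc, hc0⟩ := (Submodule.ne_bot_iff _).1 hker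
  have hLc : ∀ i : ℕ, i < D → ∑ n, c n * u n ^ i = 0 := by
    intro i hi
    have := congrFun (LinearMap.mem_ker.1 hc) ⟨i, hi⟩
    exact this
  have hsum : ∀ a, ∑ n, c n * aeval (u n) (f a) = 0 := by
    intro a
    rcases hdeg a with h | h
    · have h1 : ∀ n, aeval (u n) (f a) = ∑ i ∈ Finset.range D, ((f a).coeff i : ℝ) * u n ^ i := by
        intro n
        rw [aeval_eq_sum_range' h]
        simp only [Rat.smul_def]
      simp only [h1, Finset.mul_sum]
      rw [Finset.sum_comm]
      refine Finset.sum_eq_zero fun i hi => ?_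
      have h2 := hLc i (Finset.mem_range.1 hi)
      calc ∑ n, c n * (((f a).coeff i : ℝ) * u n ^ i)
          = ((f a).coeff i : ℝ) * ∑ n, c n * u n ^ i := by
            rw [Finset.mul_sum]
            refine Finset.sum_congr rfl fun n _ => by ring
        _ = 0 := by rw [h2, mul_zero]
    · rw [h]
      simp
  -- the two sets
  let S : Finset ℕ := (Finset.univ.filter (fun n : Fin N => 0 < c n)).image (fun n : Fin N => (n : ℕ))
  let S' : Finset ℕ := (Finset.univ.filter (fun n : Fin N => ¬ 0 < c n)).image (fun n : Fin N => (n : ℕ))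
  have hsep : ∀ (T T' : Finset ℕ) (n : Fin N), (n : ℕ) ∈ T → (n : ℕ) ∉ T' → (∀ m ∈ T', m < N) →
      aeval (u n) (f (T' : WithTop (Finset ℕ))) < aeval (u n) (f (T : WithTop (Finset ℕ))) := by
    intro T T' n h1 h2 h3
    have h4 : x n ≤ (T : WithTop (Finset ℕ)) := by
      apply WithTop.coe_le_coe.2
      intro m hm
      rw [Finset.mem_singleton.1 hm]
      exact h1
    have h5 : (T' : WithTop (Finset ℕ)) ≤ w n := by
      apply WithTop.coe_le_coe.2
      intro m hm
      rw [Finset.mem_erase, Finset.mem_range]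
      refine ⟨?_, h3 m hm⟩
      rintro rfl
      exact h2 hm
    exact lt_of_le_of_lt ((hle _ _).1 h5 _ (hu1 n))
      (lt_of_lt_of_le (hu2 n) ((hle _ _).1 h4 _ (hu1 n)))
  have hS : ∀ n : Fin N, (n : ℕ) ∈ S ↔ 0 < c n := by
    intro n
    simp only [S, Finset.mem_image, Finset.mem_filter, Finset.mem_univ, true_and]
    constructor
    · rintro ⟨m, hm, hmn⟩
      rwa [← Fin.ext hmn]
    · intro h
      exact ⟨n, h, rfl⟩
  have hS' : ∀ n : Fin N, (n : ℕ) ∈ S' ↔ ¬ 0 < c n := by
    intro n
    simp only [S', Finset.mem_image, Finset.mem_filter, Finset.mem_univ, true_and]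
    constructor
    · rintro ⟨m, hm, hmn⟩
      rwa [← Fin.ext hmn]
    · intro h
      exact ⟨n, h, rfl⟩
  have hSN : ∀ m ∈ S, m < N := by
    intro m hm
    simp only [S, Finset.mem_image] at hm
    obtain ⟨n, _, rfl⟩ := hm
    exact n.2
  have hSN' : ∀ m ∈ S', m < N := by
    intro m hm
    simp only [S', Finset.mem_image] at hm
    obtain ⟨n, _, rfl⟩ := hm
    exact n.2
  have hpos : 0 < ∑ n, c n * (aeval (u n) (f (S : WithTop (Finset ℕ))) -
      aeval (u n) (f (S' : WithTop (Finset ℕ)))) := by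
    obtain ⟨m, hm⟩ : ∃ m, c m ≠ 0 := by
      by_contra h
      push Not at h
      exact hc0 (funext h)
    have hterm : ∀ n, c n ≠ 0 → 0 < c n * (aeval (u n) (f (S : WithTop (Finset ℕ))) -
      aeval (u n) (f (S' : WithTop (Finset ℕ)))) := by
      intro n hn
      by_cases hcn : 0 < c n
      · have h1 := hsep S S' n ((hS n).2 hcn) (fun h => (hS' n).1 h hcn) hSN'
        exact mul_pos hcn (by linarith)
      · have h1 := hsep S' S n ((hS' n).2 hcn) (fun h => hcn ((hS n).1 h)) hSN
        have h2 : c n < 0 := lt_of_le_of_ne (not_lt.1 hcn) hn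
        exact mul_pos_of_neg_of_neg h2 (by linarith)
    refine Finset.sum_pos' (fun n _ => ?_) ⟨m, Finset.mem_univ _, hterm m hm⟩
    by_cases hn : c n = 0
    · rw [hn, zero_mul]
    · exact (hterm n hn).le
  have hzero : ∑ n, c n * (aeval (u n) (f (S : WithTop (Finset ℕ))) -
      aeval (u n) (f (S' : WithTop (Finset ℕ)))) = 0 := by
    simp only [mul_sub, Finset.sum_sub_distrib, hsum, sub_zero]
  linarith

/-- For all reals `1 < s < t` there is a countable preorder (in fact a countable partial order)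
that admits no order-embedding into the polynomials with coefficients in `{0, 1} ∪ ℚ_{≥ 2}`
ordered pointwise on `[s, t]`. -/
theorem result : ∀ s t : ℝ, 1 < s → s < t →
    ∃ (A : Type) (_ : PartialOrder A) (_ : Countable A),
      ¬ ∃ f : A → ℚ[X], (∀ a, InP (f a)) ∧ ∀ a b, a ≤ b ↔ LeP s t (f a) (f b) := by
  intro s t hs hst
  refine ⟨WithTop (Finset ℕ), inferInstance, ?_, ?_⟩
  · exact (inferInstance : Countable (Option (Finset ℕ)))
  · rintro ⟨f, hf, hle⟩
    exact core s t hs hst f hf hle

end Pool.Agent.Results.MP_387adc_co.NotUniversal
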